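import Pool.Agent.Lib.MP_524519_ag.DU5.TR.Iface

set_option autoImplicit false

namespace Pool.Agent.DU5.TR.H82

/-! ### DFR: derivations of fraction fields -/

section

variable {k A : Type} [Field k] [CommRing A] [IsDomain A] [Algebra k A] (D : Derivation k A A)

/-- the homomorphism `a ↦ (a, D a)` into the dual numbers over the fraction field -/
noncomputable def phi : A →+* TrivSqZeroExt (FractionRing A) (FractionRing A) where
  toFun a := TrivSqZeroExt.inl (algebraMap A (FractionRing A) a) +
    TrivSqZeroExt.inr (algebraMap A (FractionRing A) (D a))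
  map_one' := by
    ext <;> simp
  map_mul' a b := by
    ext
    · simp
    · simp only [TrivSqZeroExt.snd_add, TrivSqZeroExt.snd_inl, TrivSqZeroExt.snd_inr,
        TrivSqZeroExt.snd_mul, TrivSqZeroExt.fst_add, TrivSqZeroExt.fst_inl,
        TrivSqZeroExt.fst_inr, map_mul, map_add, D.leibniz, smul_eq_mul, zero_add, add_zero,
        MulOpposite.smul_eq_mul_unop, MulOpposite.unop_op]
      ring
  map_zero' := by
    ext <;> simp
  map_add' a b := by
    ext
    · simp
    · simp only [TrivSqZeroExt.snd_add, TrivSqZeroExt.snd_inl, TrivSqZeroExt.snd_inr, map_add,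
        zero_add]

theorem phi_snd (a : A) : (phi D a).snd = algebraMap A (FractionRing A) (D a) := by
  show (TrivSqZeroExt.inl (algebraMap A (FractionRing A) a) +
    TrivSqZeroExt.inr (algebraMap A (FractionRing A) (D a)) :
      TrivSqZeroExt (FractionRing A) (FractionRing A)).snd = _
  rw [TrivSqZeroExt.snd_add, TrivSqZeroExt.snd_inl, TrivSqZeroExt.snd_inr, zero_add]

theorem phi_unit (y : nonZeroDivisors A) : IsUnit (phi D y) := by
  rw [TrivSqZeroExt.isUnit_iff_isUnit_fst]
  have h : (phi D y).fst = algebraMap A (FractionRing A) y := by
    simp [phi]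
  rw [h]
  exact IsLocalization.map_units (FractionRing A) y

/-- the extension of `phi` -/
noncomputable def phx : FractionRing A →+* TrivSqZeroExt (FractionRing A) (FractionRing A) :=
  IsLocalization.lift (M := nonZeroDivisors A) (phi_unit D)

theorem phx_alg (a : A) : phx D (algebraMap A (FractionRing A) a) = phi D a :=
  IsLocalization.lift_eq _ a

theorem phx_fst (z : FractionRing A) : (phx D z).fst = z := by
  have h : (TrivSqZeroExt.fstHom (FractionRing A) (FractionRing A)
      (FractionRing A) : _ →+* FractionRing A).comp (phx D) = RingHom.id _ := by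
    apply IsLocalization.ringHom_ext (nonZeroDivisors A)
    ext a
    simp [phx_alg, phi]
  have := congrArg (fun g => g z) h
  simpa using this

/-- the extended derivation -/
noncomputable def dx : Derivation k (FractionRing A) (FractionRing A) where
  toFun z := (phx D z).snd
  map_add' a b := by simp
  map_smul' c z := by
    have h1 : c • z = algebraMap A (FractionRing A) (algebraMap k A c) * z := by
      rw [Algebra.smul_def, IsScalarTower.algebraMap_apply k A (FractionRing A)]
    rw [h1, map_mul, phx_alg, RingHom.id_apply]
    have h2 : (phi D (algebraMap k A c)).snd = 0 := by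
      rw [phi_snd, D.map_algebraMap, map_zero]
    have h3 : (phi D (algebraMap k A c)).fst =
        algebraMap A (FractionRing A) (algebraMap k A c) := by
      simp [phi]
    rw [TrivSqZeroExt.snd_mul, h2, h3, smul_zero, add_zero, smul_eq_mul, Algebra.smul_def,
      IsScalarTower.algebraMap_apply k A (FractionRing A)]
  map_one_eq_zero' := by
    simp
  leibniz' a b := by
    show (phx D (a * b)).snd = _
    rw [map_mul, TrivSqZeroExt.snd_mul, phx_fst, phx_fst]
    simp [mul_comm]

theorem dx_alg (a : A) : dx D (algebraMap A (FractionRing A) a) =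
    algebraMap A (FractionRing A) (D a) := by
  show (phx D (algebraMap A (FractionRing A) a)).snd = _
  rw [phx_alg, phi_snd]

end

theorem dfr : DfrStatement := by
  intro k A _ _ _ _ D
  refine ⟨dx D, dx_alg D, ?_⟩
  intro p hp h1 h2 z
  obtain ⟨a, b, hb, rfl⟩ := IsFractionRing.div_surjective (A := A) z
  have hb0 : algebraMap A (FractionRing A) b ≠ 0 := by
    intro h
    have := (map_eq_zero_iff _ (IsFractionRing.injective A (FractionRing A))).1 h
    exact nonZeroDivisors.ne_zero hb this
  have hD : D (b ^ p) = 0 := by
    have := h1 1 b
    rwa [mul_one, D.map_one_eq_zero, mul_zero] at this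
  have key : ∀ y : A, dx D (algebraMap A (FractionRing A) y /
      algebraMap A (FractionRing A) b ^ p) =
      algebraMap A (FractionRing A) (D y) / algebraMap A (FractionRing A) b ^ p := by
    intro y
    have h3 : algebraMap A (FractionRing A) y = algebraMap A (FractionRing A) (b ^ p) *
        (algebraMap A (FractionRing A) y / algebraMap A (FractionRing A) b ^ p) := by
      rw [map_pow]
      field_simp
    have h4 := congrArg (dx D) h3
    rw [dx_alg, Derivation.leibniz, dx_alg, hD, map_zero, smul_zero, add_zero, smul_eq_mul,
      map_pow] at h4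
    rw [h4]
    field_simp
  have key2 : ∀ (n : ℕ) (y : A), (dx D)^[n] (algebraMap A (FractionRing A) y /
      algebraMap A (FractionRing A) b ^ p) =
      algebraMap A (FractionRing A) (D^[n] y) / algebraMap A (FractionRing A) b ^ p := by
    intro n
    induction n with
    | zero => intro y; rfl
    | succ n ih =>
      intro y
      rw [Function.iterate_succ_apply, Function.iterate_succ_apply, key, ih]
  have h5 : algebraMap A (FractionRing A) a / algebraMap A (FractionRing A) b =
      algebraMap A (FractionRing A) (a * b ^ (p - 1)) / algebraMap A (FractionRing A) b ^ p := by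
    obtain ⟨q, rfl⟩ : ∃ q, p = q + 1 := ⟨p - 1, by omega⟩
    rw [map_mul, map_pow, Nat.add_sub_cancel, pow_succ]
    field_simp
  rw [h5, key2, h2, map_zero, zero_div]

end Pool.Agent.DU5.TR.H82
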