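import Pool.Agent.Lib.MP_524519_ag.DU5.TR.Iface

set_option autoImplicit false

namespace Pool.Agent.DU5.TR.H82

/-! ### STP1 -/

theorem stp1 (h1 : IndStatement) (h2 : LamStatement) (h3 : DetStatement) : Stp1Statement := by
  intro f m n t T hm hn
  obtain ⟨h, hh⟩ := (h1 n ℂ (adj f)).1 hn
  obtain ⟨w, hw, hdet⟩ := h3 n ℂ {w | ∃ (x : Fin 3 → PowerSeries (PowerSeries ℂ)) (i : Fin 3)
      (c r : ℕ) (v : PowerSeries (PowerSeries ℂ)), Dat f x i c v ∧ r < c ∧
      w = fun b => PowerSeries.constantCoeff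
        (Pol (PowerSeries.derivative ℂ) x i v (h b) r)} (by
    intro e he
    have hc : ∑ b, e b • h b ∉ adj f := fun hc => he (hh e hc)
    obtain ⟨x, i, c, r, v, h4, h5, h6⟩ := h2 f m n t T hm h e hc
    exact ⟨_, ⟨x, i, c, r, v, h4, h5, rfl⟩, h6⟩)
  choose x i c r v h4 h5 h6 using hw
  refine ⟨h, x, i, c, r, v, fun a => ⟨h4 a, h5 a⟩, ?_⟩
  have h7 : w = fun a b => PowerSeries.constantCoeff
      (Pol (PowerSeries.derivative ℂ) (x a) (i a) (v a) (h b) (r a)) := by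
    funext a
    exact h6 a
  rw [h7] at hdet
  exact hdet

end Pool.Agent.DU5.TR.H82
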